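import Mathlib

set_option autoImplicit false

/-!
Ideals generated by polynomials with at most two terms.
-/

namespace Pool.Agent.W_MP_3a69bf_ag

open MvPolynomial

variable {σ : Type*}

lemma monomial_mem_of_ne {I : Ideal (MvPolynomial σ ℝ)} {u : σ →₀ ℕ} {a : ℝ} (ha : a ≠ 0)
    (h : monomial u a ∈ I) (b : ℝ) : monomial u b ∈ I := by
  have h1 := I.mul_mem_left (C (b / a)) h
  rw [C_mul_monomial, div_mul_cancel₀ _ ha] at h1
  exact h1

/-- If an ideal is generated by polynomials with at most two terms, then a monomial `u` occurring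
in an element `f` of the ideal, but not itself in the ideal, is congruent to a nonzero multiple of
another monomial occurring in `f`. -/
lemma binom (I : Ideal (MvPolynomial σ ℝ)) (B : Set (MvPolynomial σ ℝ))
    (hB : ∀ b ∈ B, b.support.card ≤ 2) (hI : Ideal.span B = I) (f : MvPolynomial σ ℝ)
    (hf : f ∈ I) (u : σ →₀ ℕ) (hu : coeff u f ≠ 0) (hnot : monomial u (1 : ℝ) ∉ I) :
    ∃ v, v ≠ u ∧ coeff v f ≠ 0 ∧ ∃ κ : ℝ, κ ≠ 0 ∧ monomial v 1 - monomial u κ ∈ I := by
  classical
  have huniq : ∀ (v : σ →₀ ℕ) (κ κ' : ℝ), monomial v 1 - monomial u κ ∈ I →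
      monomial v 1 - monomial u κ' ∈ I → κ = κ' := by
    intro v κ κ' h1 h2
    by_contra hne
    have h3 := I.sub_mem h2 h1
    have h4 : (monomial v (1 : ℝ) - monomial u κ') - (monomial v 1 - monomial u κ) =
        monomial u (κ - κ') := by
      rw [map_sub]
      ring
    rw [h4] at h3
    exact hnot (monomial_mem_of_ne (sub_ne_zero.2 hne) h3 1)
  obtain ⟨c, hc, hc0⟩ : ∃ c : (σ →₀ ℕ) → ℝ,
      (∀ v κ, κ ≠ 0 → monomial v 1 - monomial u κ ∈ I → c v = κ) ∧
      (∀ v, c v ≠ 0 → monomial v 1 - monomial u (c v) ∈ I) := by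
    refine ⟨fun v => if h : ∃ κ : ℝ, κ ≠ 0 ∧ monomial v 1 - monomial u κ ∈ I
      then h.choose else 0, ?_, ?_⟩
    · intro v κ hκ h
      have hex : ∃ κ : ℝ, κ ≠ 0 ∧ monomial v 1 - monomial u κ ∈ I := ⟨κ, hκ, h⟩
      simp only [dif_pos hex]
      exact huniq v _ _ hex.choose_spec.2 h
    · intro v hv
      by_cases hex : ∃ κ : ℝ, κ ≠ 0 ∧ monomial v 1 - monomial u κ ∈ I
      · simp only [dif_pos hex]
        exact hex.choose_spec.2
      · simp only [dif_neg hex] at hv
        exact absurd rfl hv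
  have hone : ∀ (v : σ →₀ ℕ) (α : ℝ), α ≠ 0 → monomial v α ∈ I → c v = 0 := by
    intro v α hα h
    by_contra hcv
    have h1 := hc0 v hcv
    have h2 := monomial_mem_of_ne hα h 1
    have h3 := I.sub_mem h2 h1
    rw [sub_sub_cancel] at h3
    exact hnot (monomial_mem_of_ne hcv h3 1)
  have htwo' : ∀ (v w : σ →₀ ℕ) (α β : ℝ), α ≠ 0 → β ≠ 0 →
      monomial v α + monomial w β ∈ I → c v ≠ 0 → α * c v + β * c w = 0 := by
    intro v w α β hα hβ h hcv
    have h1 := hc0 v hcv
    have h2 := I.sub_mem (I.mul_mem_left (C β⁻¹) h) (I.mul_mem_left (C (β⁻¹ * α)) h1)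
    have h3 : C β⁻¹ * (monomial v α + monomial w β) -
        C (β⁻¹ * α) * (monomial v 1 - monomial u (c v)) =
        monomial w 1 - monomial u (-(β⁻¹ * α * c v)) := by
      rw [mul_add, mul_sub, C_mul_monomial, C_mul_monomial, C_mul_monomial, C_mul_monomial,
        mul_one, inv_mul_cancel₀ hβ, map_neg]
      ring
    rw [h3] at h2
    have h4 := hc w _ (neg_ne_zero.2 (mul_ne_zero (mul_ne_zero (inv_ne_zero hβ) hα) hcv)) h2
    rw [h4]
    field_simp
    ring
  have htwo : ∀ (v w : σ →₀ ℕ) (α β : ℝ), α ≠ 0 → β ≠ 0 →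
      monomial v α + monomial w β ∈ I → α * c v + β * c w = 0 := by
    intro v w α β hα hβ h
    by_cases hcv : c v = 0
    · by_cases hcw : c w = 0
      · rw [hcv, hcw]; ring
      · rw [add_comm] at h ⊢
        exact htwo' w v β α hβ hα h hcw
    · exact htwo' v w α β hα hβ h hcv
  set Lf : MvPolynomial σ ℝ →ₗ[ℝ] ℝ := (basisMonomials σ ℝ).constr ℝ c with hLf
  have hLm : ∀ (v : σ →₀ ℕ) (a : ℝ), Lf (monomial v a) = a * c v := by
    intro v a
    have h1 : monomial v a = a • (basisMonomials σ ℝ) v := by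
      rw [coe_basisMonomials, smul_monomial, smul_eq_mul, mul_one]
    rw [h1, map_smul, hLf, Module.Basis.constr_basis, smul_eq_mul]
  have hbase : ∀ b ∈ B, ∀ w : σ →₀ ℕ, Lf (monomial w 1 * b) = 0 := by
    intro b hb w
    have hbI : b ∈ I := by
      rw [← hI]
      exact Ideal.subset_span hb
    have hmem := I.mul_mem_left (monomial w (1 : ℝ)) hbI
    have hcard := hB b hb
    have hsum := b.support_sum_monomial_coeff
    interval_cases hk : b.support.card
    · rw [Finset.card_eq_zero] at hk
      rw [hk, Finset.sum_empty] at hsum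
      rw [← hsum, mul_zero, map_zero]
    · rw [Finset.card_eq_one] at hk
      obtain ⟨v, hv⟩ := hk
      have hcv : coeff v b ≠ 0 := by
        rw [← mem_support_iff, hv]
        exact Finset.mem_singleton_self v
      rw [hv, Finset.sum_singleton] at hsum
      rw [← hsum] at hmem ⊢
      rw [monomial_mul, one_mul] at hmem ⊢
      rw [hLm, hone _ _ hcv hmem, mul_zero]
    · rw [Finset.card_eq_two] at hk
      obtain ⟨v, v', hne, hv⟩ := hk
      have hcv : coeff v b ≠ 0 := by
        rw [← mem_support_iff, hv]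
        simp
      have hcv' : coeff v' b ≠ 0 := by
        rw [← mem_support_iff, hv]
        simp
      rw [hv, Finset.sum_pair hne] at hsum
      rw [← hsum] at hmem ⊢
      rw [mul_add, monomial_mul, monomial_mul, one_mul, one_mul] at hmem ⊢
      rw [map_add, hLm, hLm]
      exact htwo _ _ _ _ hcv hcv' hmem
  have hall : ∀ g ∈ I, ∀ p : MvPolynomial σ ℝ, Lf (p * g) = 0 := by
    intro g hg
    rw [← hI] at hg
    refine Submodule.span_induction (p := fun g _ => ∀ p : MvPolynomial σ ℝ, Lf (p * g) = 0)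
      ?_ ?_ ?_ ?_ hg
    · intro b hb p
      induction p using MvPolynomial.induction_on' with
      | monomial w a =>
        have h1 : monomial w a = a • monomial w (1 : ℝ) := by
          rw [smul_monomial, smul_eq_mul, mul_one]
        rw [h1, smul_mul_assoc, map_smul, hbase b hb w, smul_zero]
      | add p q hp hq => rw [add_mul, map_add, hp, hq, add_zero]
    · intro p
      rw [mul_zero, map_zero]
    · intro x y _ _ hx hy p
      rw [mul_add, map_add, hx, hy, add_zero]
    · intro a x _ hx p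
      rw [smul_eq_mul, ← mul_assoc]
      exact hx _
  have hLf0 : Lf f = 0 := by
    have := hall f hf 1
    rwa [one_mul] at this
  have hcu : c u = 1 := by
    apply hc u 1 one_ne_zero
    rw [sub_self]
    exact I.zero_mem
  by_contra hcon
  push Not at hcon
  have hall0 : ∀ v, v ≠ u → coeff v f ≠ 0 → c v = 0 := by
    intro v hv hcf
    by_contra hcv
    exact hcon v hv hcf (c v) hcv (hc0 v hcv)
  have hsum := f.support_sum_monomial_coeff
  rw [← hsum, map_sum] at hLf0
  rw [Finset.sum_eq_single u] at hLf0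
  · rw [hLm, hcu, mul_one] at hLf0
    exact hu hLf0
  · intro v hv hvu
    rw [hLm, hall0 v hvu (mem_support_iff.1 hv), mul_zero]
  · intro h
    exact absurd (mem_support_iff.2 hu) h

end Pool.Agent.W_MP_3a69bf_ag
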