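import Mathlib

set_option autoImplicit false

/-!
Gaussian DAG models, their vanishing ideals, toric ideals and d-separation.
-/

namespace Pool.Agent.W_MP_3a69bf_ag

open Matrix

variable {n : ℕ}

/-- The edge relation `E` (where `E a b` means `a → b`) has no directed cycle. -/
def IsDAG (E : Fin n → Fin n → Prop) : Prop := ∀ v, ¬ Relation.TransGen E v v

/-- The covariance matrices `(I - Λ)^{-T} Ω (I - Λ)^{-1}` of the Gaussian DAG model. -/
def GaussianModel (E : Fin n → Fin n → Prop) : Set (Matrix (Fin n) (Fin n) ℝ) :=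
  {S | ∃ (L : Matrix (Fin n) (Fin n) ℝ) (w : Fin n → ℝ),
    (∀ a b, ¬ E a b → L a b = 0) ∧ (∀ a, 0 < w a) ∧
    S = ((1 - L)⁻¹)ᵀ * Matrix.diagonal w * (1 - L)⁻¹}

/-- The index set of the variables `σ_ab`, `a ≤ b`. -/
abbrev Var (n : ℕ) : Type := {p : Fin n × Fin n // p.1 ≤ p.2}

/-- The vanishing ideal of the Gaussian DAG model, in the variables `σ_ab`, `a ≤ b`. -/
noncomputable def gaussianIdeal (E : Fin n → Fin n → Prop) : Ideal (MvPolynomial (Var n) ℝ) :=
  MvPolynomial.vanishingIdeal ℝ ((fun S (v : Var n) => S v.1.1 v.1.2) '' GaussianModel E)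

/-- A toric ideal: a prime ideal generated by polynomials with at most two terms. -/
def IsToric {σ : Type*} (I : Ideal (MvPolynomial σ ℝ)) : Prop :=
  I.IsPrime ∧ ∃ B : Set (MvPolynomial σ ℝ), (∀ b ∈ B, b.support.card ≤ 2) ∧ Ideal.span B = I

/-- `p 0, ..., p m` is a path: consecutive vertices are joined by an edge (in either
direction) and all vertices are distinct. -/
def IsPath (E : Fin n → Fin n → Prop) (p : ℕ → Fin n) (m : ℕ) : Prop :=
  (∀ k < m, E (p k) (p (k + 1)) ∨ E (p (k + 1)) (p k)) ∧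
  (∀ k ≤ m, ∀ l ≤ m, p k = p l → k = l)

/-- The interior vertex `p (k + 1)` is a collider: both path edges at it point into it. -/
def IsCollider (E : Fin n → Fin n → Prop) (p : ℕ → Fin n) (k : ℕ) : Prop :=
  E (p k) (p (k + 1)) ∧ E (p (k + 2)) (p (k + 1))

/-- `C` d-separates `i` and `j`. -/
def DSep (E : Fin n → Fin n → Prop) (i j : Fin n) (C : Finset (Fin n)) : Prop :=
  i ∉ C ∧ j ∉ C ∧ ∀ (p : ℕ → Fin n) (m : ℕ), IsPath E p m → p 0 = i → p m = j →
    ∃ k, k + 2 ≤ m ∧
      ((¬ IsCollider E p k ∧ p (k + 1) ∈ C) ∨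
       (IsCollider E p k ∧ ∀ d, Relation.ReflTransGen E (p (k + 1)) d → d ∉ C))

end Pool.Agent.W_MP_3a69bf_ag
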