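import Pool.Agent.W_MP_3a69bf_ag.Model
import Pool.Agent.W_MP_3a69bf_ag.Binomial

set_option autoImplicit false

/-!
If the vanishing ideal of a Gaussian DAG model is generated by polynomials with at most two
terms, then any two non-adjacent vertices are d-separated by a set with at most one element.
-/

namespace Pool.Agent.W_MP_3a69bf_ag

open Relation Matrix MvPolynomial

variable {n : ℕ} {E : Fin n → Fin n → Prop}

/-- The variable `σ_{xy}`. -/
def vr (x y : Fin n) : Var n := if h : x ≤ y then ⟨(x, y), h⟩ else ⟨(y, x), le_of_not_ge h⟩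

lemma eval_vr {S : Matrix (Fin n) (Fin n) ℝ} (hS : S ∈ GaussianModel E) (x y : Fin n) :
    S (vr x y).1.1 (vr x y).1.2 = S x y := by
  unfold vr
  split_ifs
  · rfl
  · exact model_symm hS y x

lemma vr_diag {x y c : Fin n} (h : vr x y = vr c c) : x = c ∧ y = c := by
  unfold vr at h
  rw [dif_pos (le_refl c)] at h
  split_ifs at h
  · have := congrArg Subtype.val h
    simp only [Prod.mk.injEq] at this
    exact this
  · have := congrArg Subtype.val h
    simp only [Prod.mk.injEq] at this
    exact ⟨this.2, this.1⟩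

section

variable (i j : Fin n) [Fintype {c // E c j}] [DecidableEq {c // E c j}]

/-- The exponent of the term of the determinant belonging to `τ`. -/
noncomputable def mon (τ : Equiv.Perm (Option {c // E c j})) : Var n →₀ ℕ :=
  ∑ a, Finsupp.single (vr (lab E j i (τ a)) (lab E j j a)) 1

lemma eval_mon {S : Matrix (Fin n) (Fin n) ℝ} (hS : S ∈ GaussianModel E)
    (τ : Equiv.Perm (Option {c // E c j})) (κ : ℝ) :
    MvPolynomial.eval (fun v : Var n => S v.1.1 v.1.2) (monomial (mon i j τ) κ) =
      κ * ∏ a, S (lab E j i (τ a)) (lab E j j a) := by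
  have h1 : monomial (mon i j τ) κ = C κ * monomial (mon i j τ) (1 : ℝ) := by
    rw [C_mul_monomial, mul_one]
  rw [h1, map_mul, eval_C]
  congr 1
  unfold mon
  rw [monomial_sum_one, map_prod]
  apply Finset.prod_congr rfl
  intro a _
  rw [eval_monomial, one_mul, Finsupp.prod_single_index (by simp), pow_one, eval_vr hS]

lemma mon_eq_one (hij : ¬ E i j) (hjj : ¬ E j j) (τ : Equiv.Perm (Option {c // E c j}))
    (h : mon i j τ = mon i j (1 : Equiv.Perm (Option {c // E c j}))) : τ = 1 := by
  have hsome : ∀ c : {c // E c j}, τ (some c) = some c := by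
    intro c
    have h1 : mon i j (1 : Equiv.Perm (Option {c // E c j})) (vr c.1 c.1) ≠ 0 := by
      unfold mon
      rw [Finsupp.finsetSum_apply]
      apply ne_of_gt
      apply Finset.sum_pos'
      · intro a _
        exact Nat.zero_le _
      · refine ⟨some c, Finset.mem_univ _, ?_⟩
        rw [Equiv.Perm.one_apply, lab_some, lab_some, Finsupp.single_eq_same]
        exact Nat.one_pos
    rw [← h] at h1
    unfold mon at h1
    rw [Finsupp.finsetSum_apply] at h1
    obtain ⟨a, _, ha⟩ := Finset.exists_ne_zero_of_sum_ne_zero h1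
    have h2 : vr (lab E j i (τ a)) (lab E j j a) = vr c.1 c.1 := by
      by_contra hne
      exact ha (Finsupp.single_eq_of_ne (fun h => hne h.symm))
    obtain ⟨h3, h4⟩ := vr_diag h2
    rcases a with _ | a
    · rw [lab_none] at h4
      exact absurd c.2 (by rw [← h4]; exact hjj)
    · rw [lab_some] at h4
      have h5 : a = c := Subtype.ext h4
      subst h5
      rcases hτ : τ (some a) with _ | b
      · rw [hτ, lab_none] at h3
        exact absurd a.2 (by rw [← h3]; exact hij)
      · rw [hτ, lab_some] at h3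
        rw [Subtype.ext h3]
  apply Equiv.ext
  intro a
  rw [Equiv.Perm.one_apply]
  rcases a with _ | a
  · rcases hτ : τ none with _ | b
    · rfl
    · exact absurd (τ.injective (hτ.trans (hsome b).symm)) (by simp)
  · exact hsome a

lemma exists_perm (hE : IsDAG E) (hij : ¬ E i j) (hji : ¬ ReflTransGen E j i)
    (B : Set (MvPolynomial (Var n) ℝ)) (hB : ∀ b ∈ B, b.support.card ≤ 2)
    (hI : Ideal.span B = gaussianIdeal E) (hCA : CA E i j) :
    ∃ τ : Equiv.Perm (Option {c // E c j}), τ ≠ 1 ∧ ∃ κ : ℝ, κ ≠ 0 ∧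
      ∀ S ∈ GaussianModel E, ∏ a, S (lab E j i (τ a)) (lab E j j a) =
        κ * ∏ a, S (lab E j i a) (lab E j j a) := by
  have hjj : ¬ E j j := fun h => hE j (TransGen.single h)
  obtain ⟨f, hf⟩ : ∃ f : MvPolynomial (Var n) ℝ, f =
      (Matrix.of (fun a b => X (vr (lab E j i a) (lab E j j b))) :
        Matrix (Option {c // E c j}) (Option {c // E c j}) (MvPolynomial (Var n) ℝ)).det :=
    ⟨_, rfl⟩
  have hfI : f ∈ gaussianIdeal E := by
    rw [mem_gaussianIdeal]
    intro S hS
    rw [hf, RingHom.map_det]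
    rw [← det_model hE i j hji hS]
    congr 1
    ext a b
    simp only [RingHom.mapMatrix_apply, Matrix.map_apply, Matrix.of_apply, eval_X]
    exact eval_vr hS _ _
  have hfsum : f = ∑ τ : Equiv.Perm (Option {c // E c j}),
      Equiv.Perm.sign τ • monomial (mon i j τ) (1 : ℝ) := by
    rw [hf, Matrix.det_apply]
    apply Finset.sum_congr rfl
    intro τ _
    congr 1
    unfold mon
    rw [monomial_sum_one]
    rfl
  have hcoeff : ∀ v, coeff v f = ∑ τ : Equiv.Perm (Option {c // E c j}),
      if mon i j τ = v then ((Equiv.Perm.sign τ : ℤ) : ℝ) else 0 := by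
    intro v
    rw [hfsum, coeff_sum]
    apply Finset.sum_congr rfl
    intro τ _
    rw [Units.smul_def, ← Int.cast_smul_eq_zsmul ℝ, coeff_smul, coeff_monomial, smul_eq_mul,
      mul_ite, mul_one, mul_zero]
  have hu : coeff (mon i j (1 : Equiv.Perm (Option {c // E c j}))) f ≠ 0 := by
    rw [hcoeff, Finset.sum_eq_single 1]
    · simp
    · intro τ _ hτ
      rw [if_neg (fun h => hτ (mon_eq_one i j hij hjj τ h))]
    · intro h
      exact absurd (Finset.mem_univ _) h
  have hnot : monomial (mon i j (1 : Equiv.Perm (Option {c // E c j}))) (1 : ℝ) ∉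
      gaussianIdeal E := by
    intro hmem
    obtain ⟨S, hS, hpos, _⟩ := exists_model hE E (fun _ _ h => h)
    have h1 := (mem_gaussianIdeal _).1 hmem S hS
    rw [eval_mon i j hS, one_mul, Fintype.prod_option] at h1
    have h2 : 0 < S i j := hpos i j hCA
    have h3 : 0 < ∏ c : {c // E c j}, S c.1 c.1 :=
      Finset.prod_pos (fun c _ => hpos _ _ ⟨c.1, ReflTransGen.refl, ReflTransGen.refl⟩)
    exact absurd h1 (mul_pos h2 h3).ne'
  obtain ⟨v, hv, hcv, κ, hκ, hmem⟩ := binom (gaussianIdeal E) B hB hI f hfI _ hu hnot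
  obtain ⟨τ, hτ⟩ : ∃ τ : Equiv.Perm (Option {c // E c j}), mon i j τ = v := by
    by_contra hcon
    push Not at hcon
    apply hcv
    rw [hcoeff]
    apply Finset.sum_eq_zero
    intro τ _
    rw [if_neg (hcon τ)]
  subst hτ
  refine ⟨τ, fun h => hv (by rw [h]), κ, hκ, ?_⟩
  intro S hS
  have h1 := (mem_gaussianIdeal _).1 hmem S hS
  rw [map_sub, eval_mon i j hS, eval_mon i j hS, one_mul, sub_eq_zero] at h1
  exact h1

end

/-- The combinatorial consequences of the determinantal identity. -/
lemma facts (i j : Fin n) (hE : IsDAG E) (hij : ¬ E i j) (hji : ¬ ReflTransGen E j i)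
    (B : Set (MvPolynomial (Var n) ℝ)) (hB : ∀ b ∈ B, b.support.card ≤ 2)
    (hI : Ideal.span B = gaussianIdeal E) (hCA : CA E i j) :
    ∃ c, c ≠ i ∧ c ≠ j ∧ ¬ CA (Av E {c}) i j ∧
      (¬ CA (Ns E {c}) i c ∨ ¬ CA (Ns E {c}) j c) := by
  classical
  have hjj : ¬ E j j := fun h => hE j (TransGen.single h)
  obtain ⟨τ, hτ, κ, hκ, hid⟩ := exists_perm i j hE hij hji B hB hI hCA
  have hci : ∀ c : {c // E c j}, c.1 ≠ i := fun c h => hij (by rw [← h]; exact c.2)
  have hcj : ∀ c : {c // E c j}, c.1 ≠ j := by
    intro c h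
    apply hjj
    have := c.2
    rwa [h] at this
  -- every moved parent lies on all treks
  have h3 : ∀ c : {c // E c j}, τ (some c) ≠ some c → ¬ CA (Av E {c.1}) i j := by
    intro c hc hca
    obtain ⟨S, hS, hpos, hzero⟩ := exists_model hE (Av E {c.1}) (fun _ _ h => h.1)
    have h1 := hid S hS
    have hx : lab E j i (τ (some c)) ≠ c.1 := by
      rcases hτc : τ (some c) with _ | c'
      · rw [lab_none]
        exact (hci c).symm
      · rw [lab_some]
        intro h
        apply hc
        rw [hτc, Subtype.ext h]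
    have h2 : S (lab E j i (τ (some c))) (lab E j j (some c)) = 0 := by
      apply hzero
      rintro ⟨z, hz1, hz2⟩
      rw [lab_some] at hz2
      rcases ReflTransGen.cases_tail hz2 with h | ⟨y, _, hy⟩
      · subst h
        rcases ReflTransGen.cases_head hz1 with h | ⟨y, hy, _⟩
        · exact hx h.symm
        · exact hy.2.1 (Finset.mem_singleton_self _)
      · exact hy.2.2 (Finset.mem_singleton_self _)
    rw [Finset.prod_eq_zero (Finset.mem_univ (some c)) h2, Fintype.prod_option] at h1
    have h4 : 0 < S i j := hpos i j hca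
    have h5 : 0 < ∏ c : {c // E c j}, S c.1 c.1 :=
      Finset.prod_pos (fun c _ => hpos _ _ ⟨c.1, ReflTransGen.refl, ReflTransGen.refl⟩)
    exact absurd h1.symm (mul_ne_zero hκ (mul_pos h4 h5).ne')
  -- at most one parent is moved
  have h4 : ∀ c c' : {c // E c j}, c ≠ c' → ¬ CA (Av E {c.1}) i j → ¬ CA (Av E {c'.1}) i j →
      ReflTransGen E c'.1 c.1 := by
    intro c c' hne h1 h2
    by_contra hcc
    have hne' : c.1 ≠ c'.1 := fun h => hne (Subtype.ext h)
    have hci' : ¬ ReflTransGen E c'.1 i := by
      intro h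
      rcases split c.1 h with h' | ⟨h', _⟩
      · apply h1
        refine ⟨c'.1, h', ReflTransGen.single ⟨c'.2, ?_, ?_⟩⟩
        · rw [Finset.mem_singleton]; exact hne'.symm
        · rw [Finset.mem_singleton]; exact (hcj c).symm
      · exact hcc h'
    obtain ⟨z, hz1, hz2⟩ := hCA
    have hzc : ReflTransGen E z c.1 := by
      rcases split c.1 hz1 with h | ⟨h, _⟩
      · rcases split c.1 hz2 with h' | ⟨h', _⟩
        · exact absurd ⟨z, h, h'⟩ h1
        · exact h'
      · exact h
    have hz1' : ReflTransGen (Av E {c'.1}) z i := by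
      rcases split c'.1 hz1 with h | ⟨_, h⟩
      · exact h
      · exact absurd h hci'
    have hzc' : ReflTransGen (Av E {c'.1}) z c.1 := by
      rcases split c'.1 hzc with h | ⟨_, h⟩
      · exact h
      · exact absurd h hcc
    apply h2
    refine ⟨z, hz1', hzc'.tail ⟨c.2, ?_, ?_⟩⟩
    · rw [Finset.mem_singleton]; exact hne'
    · rw [Finset.mem_singleton]; exact (hcj c').symm
  obtain ⟨c, hc⟩ : ∃ c : {c // E c j}, τ (some c) ≠ some c := by
    by_contra hcon
    push Not at hcon
    apply hτ
    apply Equiv.ext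
    intro a
    rw [Equiv.Perm.one_apply]
    rcases a with _ | a
    · rcases hτn : τ none with _ | b
      · rfl
      · exact absurd (τ.injective (hτn.trans (hcon b).symm)) (by simp)
    · exact hcon a
  have huniq : ∀ c' : {c // E c j}, c' ≠ c → τ (some c') = some c' := by
    intro c' hne
    by_contra hc'
    have h5 := h4 c c' hne.symm (h3 c hc) (h3 c' hc')
    have h6 := h4 c' c hne (h3 c' hc') (h3 c hc)
    rcases (reflTransGen_iff_eq_or_transGen.1 h5) with h7 | h7
    · exact hne (Subtype.ext h7.symm)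
    · exact hE _ (h7.trans_left h6)
  have hτc : τ (some c) = none := by
    rcases h : τ (some c) with _ | c'
    · rfl
    · exfalso
      by_cases hcc : c' = c
      · subst hcc
        exact hc h
      · have h' := τ.injective (h.trans (huniq c' hcc).symm)
        rw [Option.some.injEq] at h'
        exact hcc h'.symm
  have hτn : τ none = some c := by
    rcases h : τ none with _ | c'
    · exact absurd (τ.injective (h.trans hτc.symm)) (by simp)
    · by_cases hcc : c' = c
      · rw [hcc]
      · exact absurd (τ.injective (h.trans (huniq c' hcc).symm)) (by simp)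
  refine ⟨c.1, hci c, hcj c, h3 c hc, ?_⟩
  by_contra hcon
  rw [not_or, not_not, not_not] at hcon
  obtain ⟨h5, h6⟩ := hcon
  obtain ⟨S, hS, hpos, hzero⟩ := exists_model hE (Ns E {c.1}) (fun _ _ h => h.1)
  have h7 := hid S hS
  have h8 : S i j = 0 := by
    apply hzero
    rintro ⟨z, hz1, hz2⟩
    apply h3 c hc
    refine ⟨z, (Ns_Av _ hz1 ?_).1, (Ns_Av _ hz2 ?_).1⟩
    · rw [Finset.mem_singleton]; exact (hci c).symm
    · rw [Finset.mem_singleton]; exact (hcj c).symm
  have h9 : κ * ∏ a, S (lab E j i a) (lab E j j a) = 0 := by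
    rw [Fintype.prod_option, lab_none, lab_none, h8, zero_mul, mul_zero]
  rw [h9, Fintype.prod_option, hτn, lab_some, lab_none] at h7
  have h10 : 0 < S c.1 j := hpos _ _ h6.symm
  have h11 : 0 < ∏ c' : {c // E c j}, S (lab E j i (τ (some c'))) (lab E j j (some c')) := by
    apply Finset.prod_pos
    intro c' _
    apply hpos
    by_cases hcc : c' = c
    · subst hcc
      rw [hτc, lab_none, lab_some]
      exact h5
    · rw [huniq c' hcc, lab_some, lab_some]
      exact ⟨c'.1, ReflTransGen.refl, ReflTransGen.refl⟩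
  exact absurd h7 (mul_pos h10 h11).ne'

/-- The main statement. -/
theorem exists_small_dsep (hE : IsDAG E) (i j : Fin n) (hne : i ≠ j) (hij : ¬ E i j)
    (hji : ¬ E j i) (B : Set (MvPolynomial (Var n) ℝ)) (hB : ∀ b ∈ B, b.support.card ≤ 2)
    (hI : Ideal.span B = gaussianIdeal E) : ∃ C : Finset (Fin n), C.card ≤ 1 ∧ DSep E i j C := by
  by_cases hCA : CA E i j
  · have hf : ∃ c, c ≠ i ∧ c ≠ j ∧ ¬ CA (Av E {c}) i j ∧
        (¬ CA (Ns E {c}) i c ∨ ¬ CA (Ns E {c}) j c) := by
      by_cases hanc : ReflTransGen E j i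
      · have hanc' : ¬ ReflTransGen E i j := by
          intro h
          rcases (reflTransGen_iff_eq_or_transGen.1 h) with h7 | h7
          · exact hne h7.symm
          · exact hE _ (h7.trans_left hanc)
        obtain ⟨c, h1, h2, h3, h4⟩ := facts j i hE hji hanc' B hB hI hCA.symm
        exact ⟨c, h2, h1, fun h => h3 h.symm, h4.symm⟩
      · exact facts i j hE hij hanc B hB hI hCA
    obtain ⟨c, h1, h2, h3, h4⟩ := hf
    refine ⟨{c}, by simp, dsep_of hE {c} i j ?_ ?_ h3 ?_⟩
    · rw [Finset.mem_singleton]; exact h1.symm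
    · rw [Finset.mem_singleton]; exact h2.symm
    · rcases h4 with h4 | h4
      · left
        intro c' hc'
        rw [Finset.mem_singleton] at hc'
        rw [hc']; exact h4
      · right
        intro c' hc'
        rw [Finset.mem_singleton] at hc'
        rw [hc']; exact h4
  · refine ⟨∅, by simp, dsep_of hE ∅ i j (by simp) (by simp) ?_ (Or.inl (by simp))⟩
    rintro ⟨z, h1, h2⟩
    exact hCA ⟨z, Av_E _ h1, Av_E _ h2⟩

end Pool.Agent.W_MP_3a69bf_ag
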