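import Pool.Agent.W_MP_3a69bf_ag.Paths

set_option autoImplicit false

/-!
Evaluation of Gaussian DAG models at special parameters.
-/

namespace Pool.Agent.W_MP_3a69bf_ag

open Relation Matrix

variable {n : ℕ} {E : Fin n → Fin n → Prop}

lemma wf_rev (hE : IsDAG E) : WellFounded (fun a b => E b a) := by
  have h1 : IsTrans (Fin n) (fun a b => TransGen E b a) := ⟨fun _ _ _ h1 h2 => h2.trans h1⟩
  have h2 : Std.Irrefl (fun a b => TransGen E b a) := ⟨fun a h => hE a h⟩
  have wf := Finite.wellFounded_of_trans_of_irrefl (fun a b => TransGen E b a)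
  exact Subrelation.wf (fun h => TransGen.single h) wf

lemma isUnit_one_sub (hE : IsDAG E) (L : Matrix (Fin n) (Fin n) ℝ)
    (hL : ∀ a b, ¬ E a b → L a b = 0) : IsUnit (1 - L) := by
  rw [← Matrix.mulVec_injective_iff_isUnit]
  intro v w h
  have h1 : (1 - L) *ᵥ (v - w) = 0 := by
    rw [mulVec_sub, h, sub_self]
  have h2 : ∀ a, (v - w) a = ∑ b, L a b * (v - w) b := by
    intro a
    have h3 := congrFun h1 a
    rw [sub_mulVec, one_mulVec, Pi.sub_apply, Pi.zero_apply, sub_eq_zero] at h3
    rw [h3]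
    rfl
  have h3 : ∀ a, (v - w) a = 0 := by
    intro a
    induction a using (wf_rev hE).induction with
    | _ a ih =>
      rw [h2 a]
      apply Finset.sum_eq_zero
      intro b _
      by_cases hab : E a b
      · rw [ih b hab, mul_zero]
      · rw [hL a b hab, zero_mul]
  funext a
  have := h3 a
  rw [Pi.sub_apply, sub_eq_zero] at this
  exact this

lemma inv_eq (hE : IsDAG E) (L : Matrix (Fin n) (Fin n) ℝ)
    (hL : ∀ a b, ¬ E a b → L a b = 0) (a b : Fin n) :
    (1 - L)⁻¹ a b = (if a = b then 1 else 0) + ∑ c, L a c * (1 - L)⁻¹ c b := by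
  have hu := isUnit_one_sub hE L hL
  have h1 : (1 - L) * (1 - L)⁻¹ = 1 :=
    Matrix.mul_nonsing_inv _ ((Matrix.isUnit_iff_isUnit_det _).1 hu)
  rw [sub_mul, one_mul, sub_eq_iff_eq_add] at h1
  have h2 := congrFun (congrFun h1 a) b
  rw [h2, Matrix.add_apply, Matrix.mul_apply, Matrix.one_apply]

lemma inv_zero (hE : IsDAG E) (L : Matrix (Fin n) (Fin n) ℝ)
    (hL : ∀ a b, ¬ E a b → L a b = 0) (W : Fin n → Fin n → Prop)
    (hW : ∀ a b, ¬ W a b → L a b = 0) (a b : Fin n) (h : ¬ ReflTransGen W a b) :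
    (1 - L)⁻¹ a b = 0 := by
  induction a using (wf_rev hE).induction with
  | _ a ih =>
    rw [inv_eq hE L hL a b, if_neg, zero_add]
    · apply Finset.sum_eq_zero
      intro c _
      by_cases hac : W a c
      · by_cases hac' : E a c
        · rw [ih c hac' (fun h' => h (ReflTransGen.head hac h')), mul_zero]
        · rw [hL a c hac', zero_mul]
      · rw [hW a c hac, zero_mul]
    · rintro rfl
      exact h ReflTransGen.refl

lemma inv_nonneg (hE : IsDAG E) (L : Matrix (Fin n) (Fin n) ℝ)
    (hL : ∀ a b, ¬ E a b → L a b = 0) (hL0 : ∀ a b, 0 ≤ L a b) (a b : Fin n) :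
    0 ≤ (1 - L)⁻¹ a b := by
  induction a using (wf_rev hE).induction with
  | _ a ih =>
    rw [inv_eq hE L hL a b]
    apply add_nonneg
    · split_ifs <;> norm_num
    · apply Finset.sum_nonneg
      intro c _
      by_cases hac : E a c
      · exact mul_nonneg (hL0 a c) (ih c hac)
      · rw [hL a c hac, zero_mul]

lemma inv_pos (hE : IsDAG E) (L : Matrix (Fin n) (Fin n) ℝ)
    (hL : ∀ a b, ¬ E a b → L a b = 0) (hL0 : ∀ a b, 0 ≤ L a b)
    (W : Fin n → Fin n → Prop) (hW : ∀ a b, W a b → 0 < L a b) (a b : Fin n)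
    (h : ReflTransGen W a b) : 0 < (1 - L)⁻¹ a b := by
  induction h using ReflTransGen.head_induction_on with
  | refl =>
    rw [inv_eq hE L hL b b, if_pos rfl]
    apply add_pos_of_pos_of_nonneg one_pos
    apply Finset.sum_nonneg
    intro c _
    exact mul_nonneg (hL0 _ _) (inv_nonneg hE L hL hL0 _ _)
  | @head x y h1 _ ih =>
    rw [inv_eq hE L hL x b]
    apply add_pos_of_nonneg_of_pos
    · split_ifs <;> norm_num
    · apply Finset.sum_pos'
      · intro c _
        exact mul_nonneg (hL0 _ _) (inv_nonneg hE L hL hL0 _ _)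
      · exact ⟨y, Finset.mem_univ _, mul_pos (hW x y h1) ih⟩

lemma model_apply (L : Matrix (Fin n) (Fin n) ℝ) (w : Fin n → ℝ) (x y : Fin n) :
    (((1 - L)⁻¹)ᵀ * Matrix.diagonal w * (1 - L)⁻¹ : Matrix (Fin n) (Fin n) ℝ) x y =
      ∑ z, (1 - L)⁻¹ z x * w z * (1 - L)⁻¹ z y := by
  rw [Matrix.mul_apply]
  apply Finset.sum_congr rfl
  intro z _
  rw [Matrix.mul_diagonal, Matrix.transpose_apply]

lemma model_symm {S : Matrix (Fin n) (Fin n) ℝ} (hS : S ∈ GaussianModel E) (x y : Fin n) :
    S x y = S y x := by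
  obtain ⟨L, w, _, _, rfl⟩ := hS
  rw [model_apply, model_apply]
  apply Finset.sum_congr rfl
  intro z _
  ring

/-- For every subgraph `W` there is a covariance matrix in the model whose entries are positive
exactly at the pairs with a common `W`-ancestor and zero otherwise. -/
lemma exists_model (hE : IsDAG E) (W : Fin n → Fin n → Prop) (hWE : ∀ a b, W a b → E a b) :
    ∃ S ∈ GaussianModel E, (∀ x y, CA W x y → 0 < S x y) ∧ (∀ x y, ¬ CA W x y → S x y = 0) := by
  classical
  set L : Matrix (Fin n) (Fin n) ℝ := fun a b => if W a b then 1 else 0 with hLdef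
  have hL : ∀ a b, ¬ E a b → L a b = 0 := by
    intro a b h
    rw [hLdef]
    simp only
    rw [if_neg (fun h' => h (hWE a b h'))]
  have hL0 : ∀ a b, 0 ≤ L a b := by
    intro a b
    rw [hLdef]
    simp only
    split_ifs <;> norm_num
  have hW1 : ∀ a b, W a b → 0 < L a b := by
    intro a b h
    rw [hLdef]
    simp only
    rw [if_pos h]
    norm_num
  have hW2 : ∀ a b, ¬ W a b → L a b = 0 := by
    intro a b h
    rw [hLdef]
    simp only
    rw [if_neg h]
  refine ⟨_, ⟨L, fun _ => 1, hL, fun _ => one_pos, rfl⟩, ?_, ?_⟩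
  · rintro x y ⟨z, h1, h2⟩
    rw [model_apply]
    apply Finset.sum_pos'
    · intro c _
      have h3 := inv_nonneg hE L hL hL0 c x
      have h4 := inv_nonneg hE L hL hL0 c y
      rw [mul_one]
      exact mul_nonneg h3 h4
    · refine ⟨z, Finset.mem_univ _, ?_⟩
      rw [mul_one]
      exact mul_pos (inv_pos hE L hL hL0 W hW1 z x h1) (inv_pos hE L hL hL0 W hW1 z y h2)
  · intro x y h
    rw [model_apply]
    apply Finset.sum_eq_zero
    intro z _
    by_cases h1 : ReflTransGen W z x
    · by_cases h2 : ReflTransGen W z y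
      · exact absurd ⟨z, h1, h2⟩ h
      · rw [inv_zero hE L hL W hW2 z y h2, mul_zero]
    · rw [inv_zero hE L hL W hW2 z x h1, zero_mul, zero_mul]

lemma mem_gaussianIdeal (f : MvPolynomial (Var n) ℝ) : f ∈ gaussianIdeal E ↔
    ∀ S ∈ GaussianModel E, MvPolynomial.eval (fun v : Var n => S v.1.1 v.1.2) f = 0 := by
  unfold gaussianIdeal
  rw [MvPolynomial.mem_vanishingIdeal_iff]
  constructor
  · intro h S hS
    have := h _ ⟨S, hS, rfl⟩
    rwa [MvPolynomial.aeval_eq_eval] at this
  · rintro h x ⟨S, hS, rfl⟩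
    have := h S hS
    rwa [MvPolynomial.aeval_eq_eval]

/-- Labels: `x` and the parents of `j`. -/
def lab (E : Fin n → Fin n → Prop) (j x : Fin n) : Option {c // E c j} → Fin n
  | none => x
  | some c => c.1

lemma lab_none (j x : Fin n) : lab E j x none = x := rfl

lemma lab_some (j x : Fin n) (c : {c // E c j}) : lab E j x (some c) = c.1 := rfl

/-- The determinant of the submatrix with rows `i, pa(j)` and columns `j, pa(j)` vanishes on
the model when `j` is not an ancestor of `i`. -/
lemma det_model (hE : IsDAG E) (i j : Fin n) (hji : ¬ ReflTransGen E j i)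
    [Fintype {c // E c j}] [DecidableEq {c // E c j}]
    {S : Matrix (Fin n) (Fin n) ℝ} (hS : S ∈ GaussianModel E) :
    (Matrix.of (fun a b => S (lab E j i a) (lab E j j b)) :
      Matrix (Option {c // E c j}) (Option {c // E c j}) ℝ).det = 0 := by
  classical
  obtain ⟨L, w, hL, _, rfl⟩ := hS
  rw [← Matrix.exists_mulVec_eq_zero_iff]
  refine ⟨fun a => match a with
    | none => 1
    | some c => - L c.1 j, ?_, ?_⟩
  · intro h
    have := congrFun h none
    simp at this
  · have hu := isUnit_one_sub hE L hL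
    have h1 : (1 - L)⁻¹ * (1 - L) = 1 :=
      Matrix.nonsing_inv_mul _ ((Matrix.isUnit_iff_isUnit_det _).1 hu)
    obtain ⟨S, hS⟩ : ∃ S, S = ((1 - L)⁻¹)ᵀ * Matrix.diagonal w * (1 - L)⁻¹ := ⟨_, rfl⟩
    have h2 : S * (1 - L) = ((1 - L)⁻¹)ᵀ * Matrix.diagonal w := by
      rw [hS, Matrix.mul_assoc, h1, Matrix.mul_one]
    have h3 : ∀ x, ¬ ReflTransGen E j x → S x j - ∑ c, S x c * L c j = 0 := by
      intro x hx
      have h4 := congrFun (congrFun h2 x) j
      rw [mul_sub, mul_one, Matrix.sub_apply, Matrix.mul_apply, Matrix.mul_diagonal,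
        Matrix.transpose_apply, inv_zero hE L hL E hL j x hx, zero_mul] at h4
      exact h4
    rw [← hS]
    funext a
    have hlab : ¬ ReflTransGen E j (lab E j i a) := by
      rcases a with _ | c
      · exact hji
      · intro h
        exact hE j (TransGen.tail' h c.2)
    have h5 := h3 _ hlab
    have h6 : ∑ c : {c // E c j}, S (lab E j i a) c.1 * L c.1 j =
        ∑ c, S (lab E j i a) c * L c j := by
      rw [← Finset.sum_subtype (Finset.univ.filter (fun c => E c j))
        (by simp) (fun c => S (lab E j i a) c * L c j)]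
      rw [Finset.sum_filter]
      apply Finset.sum_congr rfl
      intro c _
      split_ifs with hc
      · rfl
      · rw [hL c j hc, mul_zero]
    rw [Pi.zero_apply, Matrix.mulVec, dotProduct, Fintype.sum_option]
    simp only [Matrix.of_apply, lab_none, lab_some, mul_one, mul_neg, Finset.sum_neg_distrib]
    rw [h6]
    linarith

end Pool.Agent.W_MP_3a69bf_ag
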