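import Pool.Agent.W_MP_3a69bf_ag.Defs

set_option autoImplicit false

/-!
Reachability in DAGs and d-separation.
-/

namespace Pool.Agent.W_MP_3a69bf_ag

open Relation

variable {n : ℕ} {E : Fin n → Fin n → Prop}

/-- Edges avoiding `C`. -/
def Av (E : Fin n → Fin n → Prop) (C : Finset (Fin n)) (a b : Fin n) : Prop :=
  E a b ∧ a ∉ C ∧ b ∉ C

/-- Edges not starting in `C`. -/
def Ns (E : Fin n → Fin n → Prop) (C : Finset (Fin n)) (a b : Fin n) : Prop :=
  E a b ∧ a ∉ C

/-- Common ancestor. -/
def CA (W : Fin n → Fin n → Prop) (x y : Fin n) : Prop :=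
  ∃ z, ReflTransGen W z x ∧ ReflTransGen W z y

lemma CA.symm {W : Fin n → Fin n → Prop} {x y : Fin n} (h : CA W x y) : CA W y x := by
  obtain ⟨z, h1, h2⟩ := h
  exact ⟨z, h2, h1⟩

lemma Av_Ns (C : Finset (Fin n)) {a b : Fin n} (h : ReflTransGen (Av E C) a b) :
    ReflTransGen (Ns E C) a b :=
  ReflTransGen.mono (fun _ _ h => ⟨h.1, h.2.1⟩) _ _ h

lemma Av_E (C : Finset (Fin n)) {a b : Fin n} (h : ReflTransGen (Av E C) a b) :
    ReflTransGen E a b :=
  ReflTransGen.mono (fun _ _ h => h.1) _ _ h

lemma Ns_E (C : Finset (Fin n)) {a b : Fin n} (h : ReflTransGen (Ns E C) a b) :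
    ReflTransGen E a b :=
  ReflTransGen.mono (fun _ _ h => h.1) _ _ h

/-- A path to a vertex outside `C` whose sources are outside `C` avoids `C`. -/
lemma Ns_Av (C : Finset (Fin n)) {a b : Fin n} (h : ReflTransGen (Ns E C) a b) (hb : b ∉ C) :
    ReflTransGen (Av E C) a b ∧ a ∉ C := by
  induction h using ReflTransGen.head_induction_on with
  | refl => exact ⟨ReflTransGen.refl, hb⟩
  | head h1 _ ih => exact ⟨ReflTransGen.head ⟨h1.1, h1.2, ih.2⟩ ih.1, h1.2⟩

/-- A directed path ending in `C` can be cut at its first vertex in `C`. -/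
lemma exists_Ns (C : Finset (Fin n)) {a c : Fin n} (h : ReflTransGen E a c) (hc : c ∈ C) :
    ∃ c' ∈ C, ReflTransGen (Ns E C) a c' := by
  induction h using ReflTransGen.head_induction_on with
  | refl => exact ⟨c, hc, ReflTransGen.refl⟩
  | @head x y h1 _ ih =>
    by_cases hx : x ∈ C
    · exact ⟨x, hx, ReflTransGen.refl⟩
    · obtain ⟨c', hc', h2⟩ := ih
      exact ⟨c', hc', ReflTransGen.head ⟨h1, hx⟩ h2⟩

/-- A directed path either avoids `c` or passes through `c`. -/
lemma split (c : Fin n) {a b : Fin n} (h : ReflTransGen E a b) :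
    ReflTransGen (Av E {c}) a b ∨ (ReflTransGen E a c ∧ ReflTransGen E c b) := by
  induction h using ReflTransGen.head_induction_on with
  | refl => exact Or.inl ReflTransGen.refl
  | @head x y h1 h2 ih =>
    by_cases hx : x = c
    · subst hx
      exact Or.inr ⟨ReflTransGen.refl, ReflTransGen.head h1 h2⟩
    by_cases hy : y = c
    · subst hy
      exact Or.inr ⟨ReflTransGen.single h1, h2⟩
    rcases ih with ih | ih
    · exact Or.inl (ReflTransGen.head ⟨h1, by simpa using hx, by simpa using hy⟩ ih)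
    · exact Or.inr ⟨ReflTransGen.head h1 ih.1, ih.2⟩

/-- Walking along an active path. -/
lemma walk (hE : IsDAG E) (C : Finset (Fin n)) (p : ℕ → Fin n) (m : ℕ)
    (hp : ∀ k < m, E (p k) (p (k + 1)) ∨ E (p (k + 1)) (p k))
    (h0 : p 0 ∉ C) (hm : p m ∉ C)
    (hact : ∀ k, k + 2 ≤ m →
      (IsCollider E p k → ∃ d ∈ C, ReflTransGen E (p (k + 1)) d) ∧
      (¬ IsCollider E p k → p (k + 1) ∉ C)) :
    CA (Av E C) (p 0) (p m) ∨ ∃ c ∈ C, CA (Ns E C) (p 0) c := by
  have key : ∀ k, k ≤ m → (∃ c ∈ C, CA (Ns E C) (p 0) c) ∨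
      (ReflTransGen (Av E C) (p k) (p 0) ∧ p k ∉ C ∧
        (∀ l, k = l + 1 → E (p (l + 1)) (p l))) ∨
      (∃ z, ReflTransGen (Av E C) z (p 0) ∧ ReflTransGen (Ns E C) z (p k) ∧
        ∃ l, k = l + 1 ∧ E (p l) (p (l + 1))) := by
    intro k
    induction k with
    | zero =>
      intro _
      right; left
      exact ⟨ReflTransGen.refl, h0, fun l hl => by omega⟩
    | succ k ih =>
      intro hk
      rcases ih (by omega) with h | ⟨h1, h2, h3⟩ | ⟨z, h1, h2, l, hl, h3⟩
      · exact Or.inl h
      · rcases hp k (by omega) with he | he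
        · -- now going down
          right; right
          exact ⟨p k, h1, ReflTransGen.single ⟨he, h2⟩, k, rfl, he⟩
        · -- going up further
          right; left
          have hnot : p (k + 1) ∉ C := by
            rcases Nat.lt_or_ge (k + 1) m with hlt | hge
            · apply (hact k (by omega)).2
              rintro ⟨hc1, _⟩
              exact hE _ (TransGen.head hc1 (TransGen.single he))
            · have : k + 1 = m := by omega
              rw [this]; exact hm
          refine ⟨ReflTransGen.head ⟨he, hnot, h2⟩ h1, hnot, ?_⟩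
          intro l hl
          have : l = k := by omega
          subst this
          exact he
      · subst hl
        rcases hp (l + 1) (by omega) with he | he
        · by_cases hc : IsCollider E p l
          · obtain ⟨d, hd, hr⟩ := (hact l (by omega)).1 hc
            obtain ⟨c', hc', h4⟩ := exists_Ns C ((Ns_E C h2).trans hr) hd
            exact Or.inl ⟨c', hc', z, Av_Ns C h1, h4⟩
          · have hnot := (hact l (by omega)).2 hc
            right; right
            exact ⟨z, h1, h2.tail ⟨he, hnot⟩, l + 1, rfl, he⟩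
        · have hc : IsCollider E p l := ⟨h3, he⟩
          obtain ⟨d, hd, hr⟩ := (hact l (by omega)).1 hc
          obtain ⟨c', hc', h4⟩ := exists_Ns C ((Ns_E C h2).trans hr) hd
          exact Or.inl ⟨c', hc', z, Av_Ns C h1, h4⟩
  rcases key m (le_refl _) with h | ⟨h1, h2, _⟩ | ⟨z, h1, h2, _⟩
  · exact Or.inr h
  · exact Or.inl ⟨p m, h1, ReflTransGen.refl⟩
  · exact Or.inl ⟨z, h1, (Ns_Av C h2 hm).1⟩

/-- A criterion for d-separation. -/
lemma dsep_of (hE : IsDAG E) (C : Finset (Fin n)) (i j : Fin n) (hi : i ∉ C) (hj : j ∉ C)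
    (h1 : ¬ CA (Av E C) i j)
    (h2 : (∀ c ∈ C, ¬ CA (Ns E C) i c) ∨ (∀ c ∈ C, ¬ CA (Ns E C) j c)) : DSep E i j C := by
  refine ⟨hi, hj, ?_⟩
  intro p m hp hp0 hpm
  by_contra hcon
  push Not at hcon
  have hact : ∀ k, k + 2 ≤ m →
      (IsCollider E p k → ∃ d ∈ C, ReflTransGen E (p (k + 1)) d) ∧
      (¬ IsCollider E p k → p (k + 1) ∉ C) := by
    intro k hk
    obtain ⟨hc1, hc2⟩ := hcon k hk
    refine ⟨?_, hc1⟩
    intro h
    obtain ⟨d, hd1, hd2⟩ := hc2 h
    exact ⟨d, hd2, hd1⟩
  have hw := walk hE C p m hp.1 (by rw [hp0]; exact hi) (by rw [hpm]; exact hj) hact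
  -- the reversed path
  have hw' := walk hE C (fun k => p (m - k)) m (by
      intro k hk
      have e1 : m - k = (m - (k + 1)) + 1 := by omega
      have := hp.1 (m - (k + 1)) (by omega)
      rw [← e1] at this
      exact this.symm) (by simpa [hpm] using hj) (by simpa [hp0] using hi) (by
      intro k hk
      have e1 : m - k = (m - (k + 2)) + 2 := by omega
      have e2 : m - (k + 1) = (m - (k + 2)) + 1 := by omega
      have hiff : IsCollider E (fun k => p (m - k)) k ↔ IsCollider E p (m - (k + 2)) := by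
        unfold IsCollider
        simp only
        rw [e1, e2]
        tauto
      have := hact (m - (k + 2)) (by omega)
      rw [hiff, e2]
      exact this)
  simp only [Nat.sub_zero, Nat.sub_self] at hw'
  rw [hp0, hpm] at hw hw'
  rcases hw with hw | ⟨c, hc, hw⟩
  · exact h1 hw
  rcases hw' with hw' | ⟨c', hc', hw'⟩
  · exact h1 hw'.symm
  rcases h2 with h2 | h2
  · exact h2 c hc hw
  · exact h2 c' hc' hw'

end Pool.Agent.W_MP_3a69bf_ag
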